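import Mathlib
import Pool.Agent.Q288.PCF.Defs

/-! # The FKG inequality fails for percolation with constant freezing on `K_4` -/

open Filter Topology Matrix
open scoped Classical

set_option linter.unusedSectionVars false

namespace Pool.Agent.Results.MP_b6680e_pr.FKGFailsK4

open Pool.Agent.Q288 Pool.Agent.Q288.PCF

/-- The FKG inequality for a measure on edge configurations (an edge configuration is identified
with its set of open edges). -/
def FKG {V : Type} [Fintype V] [DecidableEq V] (μ : Finset (Sym2 V) → ℝ) : Prop :=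
  ∀ A B : Set (Finset (Sym2 V)), IsUpperSet A → IsUpperSet B →
    prob μ A * prob μ B ≤ prob μ (A ∩ B)

/-! ### General estimates -/

section General

variable {V : Type} [Fintype V] [DecidableEq V]

theorem card_openable_le (G : SimpleGraph V) (F : Finset V) (O : Finset (Sym2 V)) :
    (openable G F O).card ≤ (openable G ∅ ∅).card := by
  apply Finset.card_le_card
  intro e he
  rw [mem_openable] at he ⊢
  exact ⟨he.1, Finset.notMem_empty _, fun _ _ => Finset.notMem_empty _⟩

/-- A nonnegative function is subharmonic where it vanishes. -/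
theorem gen_nonneg_of_zero {G : SimpleGraph V} {α : ℝ} (hα : 0 ≤ α)
    {h : Finset V × Finset (Sym2 V) → ℝ} (h0 : ∀ s, 0 ≤ h s) {F : Finset V} {O : Finset (Sym2 V)}
    (hz : h (F, O) = 0) : 0 ≤ (CTMC.gen (rate G α) *ᵥ h) (F, O) := by
  rw [gen_apply, hz]
  apply add_nonneg
  · exact Finset.sum_nonneg fun e _ => by linarith [h0 (F, insert e O)]
  · exact mul_nonneg hα (Finset.sum_nonneg fun C _ => by linarith [h0 (F ∪ C, O)])

/-- A function that keeps a value is subharmonic. -/
theorem gen_eq_zero_of_const {G : SimpleGraph V} {α : ℝ}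
    {h : Finset V × Finset (Sym2 V) → ℝ} {F : Finset V} {O : Finset (Sym2 V)}
    (h1 : ∀ e ∈ openable G F O, h (F, insert e O) = h (F, O))
    (h2 : ∀ C ∈ warmClusters F O, h (F ∪ C, O) = h (F, O)) :
    (CTMC.gen (rate G α) *ᵥ h) (F, O) = 0 := by
  rw [gen_apply, Finset.sum_eq_zero (fun e he => by rw [h1 e he, sub_self]),
    Finset.sum_eq_zero (fun C hC => by rw [h2 C hC, sub_self])]
  ring

/-- Lower bound of the generator: some openable edges lead to a value at least `b`, some cluster
freezings to a value at least `b'`. -/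
theorem gen_ge {G : SimpleGraph V} {α : ℝ} (hα : 0 ≤ α)
    {h : Finset V × Finset (Sym2 V) → ℝ} (h0 : ∀ s, 0 ≤ h s) {F : Finset V} {O : Finset (Sym2 V)}
    (E : Finset (Sym2 V)) (hE : E ⊆ openable G F O) (K : Finset (Finset V))
    (hK : K ⊆ warmClusters F O) :
    ∑ e ∈ E, h (F, insert e O) + α * ∑ C ∈ K, h (F ∪ C, O) -
      ((openable G F O).card + α * Fintype.card V) * h (F, O) ≤
      (CTMC.gen (rate G α) *ᵥ h) (F, O) := by
  rw [gen_apply, Finset.sum_sub_distrib, Finset.sum_sub_distrib, Finset.sum_const,
    Finset.sum_const, nsmul_eq_mul, nsmul_eq_mul]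
  have h1 : ∑ e ∈ E, h (F, insert e O) ≤ ∑ e ∈ openable G F O, h (F, insert e O) :=
    Finset.sum_le_sum_of_subset_of_nonneg hE fun e _ _ => h0 _
  have h2 : ∑ C ∈ K, h (F ∪ C, O) ≤ ∑ C ∈ warmClusters F O, h (F ∪ C, O) :=
    Finset.sum_le_sum_of_subset_of_nonneg hK fun e _ _ => h0 _
  have h3 : ((warmClusters F O).card : ℝ) ≤ Fintype.card V := by
    exact_mod_cast card_warmClusters_le F O
  have h4 : ((warmClusters F O).card : ℝ) * h (F, O) ≤ Fintype.card V * h (F, O) :=
    mul_le_mul_of_nonneg_right h3 (h0 _)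
  have h5 := mul_le_mul_of_nonneg_left h2 hα
  have h6 := mul_le_mul_of_nonneg_left h4 hα
  rw [mul_sub]
  nlinarith

theorem cluster_empty (v : V) : cluster (∅ : Finset (Sym2 V)) v = {v} := by
  ext u
  simp only [cluster, Finset.mem_filter, Finset.mem_univ, true_and, Finset.mem_singleton,
    Finset.coe_empty, SimpleGraph.fromEdgeSet_empty]
  rw [SimpleGraph.reachable_bot]
  exact eq_comm

theorem mem_cluster_of_edge {O : Finset (Sym2 V)} {a b : V} (hab : a ≠ b) (h : s(a, b) ∈ O) :
    b ∈ cluster O a := by
  simp only [cluster, Finset.mem_filter, Finset.mem_univ, true_and]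
  apply SimpleGraph.Adj.reachable
  rw [SimpleGraph.fromEdgeSet_adj]
  exact ⟨by exact_mod_cast h, hab⟩

end General

/-! ### The complete graph with four vertices -/

/-- The complete graph on four vertices. -/
abbrev K4 : SimpleGraph (Fin 4) := ⊤

theorem openable_card_empty : (openable K4 ∅ ∅).card ≤ 6 := by
  have : openable K4 ∅ ∅ ⊆ {s(0, 1), s(0, 2), s(0, 3), s(1, 2), s(1, 3), s(2, 3)} := by
    intro e he
    rw [mem_openable] at he
    have h1 := he.1
    revert h1
    induction e with
    | _ a b =>
      intro h1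
      rw [SimpleGraph.mem_edgeSet, SimpleGraph.top_adj] at h1
      fin_cases a <;> fin_cases b <;> simp_all [Sym2.eq_swap]
  refine (Finset.card_le_card this).trans ?_
  exact (Finset.card_le_six)

/-- The edges between `{0, 1}` and `{2, 3}`. -/
def cross : Finset (Sym2 (Fin 4)) := {s(0, 2), s(0, 3), s(1, 2), s(1, 3)}

/-- The two edges `01` and `23`. -/
def inner : Finset (Sym2 (Fin 4)) := {s(0, 1), s(2, 3)}

/-- Some edge in `D` is open. -/
def hit (D : Finset (Sym2 (Fin 4))) : Set (Finset (Sym2 (Fin 4))) := {O | ∃ e ∈ D, e ∈ O}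

theorem hit_upper (D : Finset (Sym2 (Fin 4))) : IsUpperSet (hit D) := by
  rintro O O' hOO' ⟨e, he, heO⟩
  exact ⟨e, he, hOO' heO⟩

theorem openable_card_one {e : Sym2 (Fin 4)} (he : e ∈ K4.edgeSet) :
    (openable K4 ∅ {e}).card ≤ 5 := by
  have h : insert e (openable K4 ∅ {e}) ⊆ openable K4 ∅ ∅ := by
    intro f hf
    rw [Finset.mem_insert] at hf
    rw [mem_openable]
    rcases hf with rfl | hf
    · exact ⟨he, Finset.notMem_empty _, fun _ _ => Finset.notMem_empty _⟩
    · rw [mem_openable] at hf
      exact ⟨hf.1, Finset.notMem_empty _, fun _ _ => Finset.notMem_empty _⟩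
  have h1 := Finset.card_le_card h
  have h2 : e ∉ openable K4 ∅ {e} := by
    rw [mem_openable]
    simp
  rw [Finset.card_insert_of_notMem h2] at h1
  have := openable_card_empty
  omega

/-- The general lower bound for `P(all edges of D closed)`: `D'` is a set of `n` edges, and after
freezing the two endpoints of an edge of `D'` no edge of `D` can open. -/
theorem lower {α : ℝ} (hα : 0 < α) {μ : Finset (Sym2 (Fin 4)) → ℝ} (hμ : IsFinalLaw K4 α μ)
    (D D' : Finset (Sym2 (Fin 4))) (hD' : ∀ e ∈ D', e ∈ K4.edgeSet)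
    (hdisj : ∀ e ∈ D', e ∉ D) (htouch : ∀ e ∈ D', ∀ f ∈ D, ∃ v, v ∈ e ∧ v ∈ f) :
    (D'.card : ℝ) * (α / (5 + 4 * α)) / (6 + 4 * α) ≤ prob μ (hit D)ᶜ := by
  set h1 : ℝ := α / (5 + 4 * α) with hh1
  set h0 : ℝ := (D'.card : ℝ) * h1 / (6 + 4 * α) with hh0
  have h1pos : 0 < h1 := by positivity
  have h0pos : 0 ≤ h0 := by positivity
  -- good states
  let good : Finset (Fin 4) × Finset (Sym2 (Fin 4)) → Prop := fun s =>
    ∀ f ∈ D, f ∉ s.2 ∧ ∃ v ∈ f, v ∈ s.1
  let h : Finset (Fin 4) × Finset (Sym2 (Fin 4)) → ℝ := fun s =>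
    if good s then 1 else if (s.1 = ∅ ∧ ∃ e ∈ D', s.2 = {e}) then h1 else
      if (s.1 = ∅ ∧ s.2 = ∅) then h0 else 0
  have vA : ∀ s, good s → h s = 1 := fun s hs => if_pos hs
  have vB : ∀ s, ¬ good s → (s.1 = ∅ ∧ ∃ e ∈ D', s.2 = {e}) → h s = h1 :=
    fun s hs hs' => (if_neg hs).trans (if_pos hs')
  have vC : ∀ s, ¬ good s → ¬ (s.1 = ∅ ∧ ∃ e ∈ D', s.2 = {e}) → (s.1 = ∅ ∧ s.2 = ∅) → h s = h0 :=
    fun s hs hs' hs'' => (if_neg hs).trans ((if_neg hs').trans (if_pos hs''))
  have vD : ∀ s, ¬ good s → ¬ (s.1 = ∅ ∧ ∃ e ∈ D', s.2 = {e}) → ¬ (s.1 = ∅ ∧ s.2 = ∅) → h s = 0 :=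
    fun s hs hs' hs'' => (if_neg hs).trans ((if_neg hs').trans (if_neg hs''))
  have hnn : ∀ s, 0 ≤ h s := by
    intro s
    by_cases c1 : good s
    · rw [vA s c1]; norm_num
    · by_cases c2 : (s.1 = ∅ ∧ ∃ e ∈ D', s.2 = {e})
      · rw [vB s c1 c2]; exact h1pos.le
      · by_cases c3 : (s.1 = ∅ ∧ s.2 = ∅)
        · rw [vC s c1 c2 c3]; exact h0pos
        · rw [vD s c1 c2 c3]
  by_cases hDe : D = ∅
  · -- trivial case: the event is certain
    have hu : (hit D)ᶜ = Set.univ := by
      rw [hDe]; ext O; simp [hit]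
    rw [hu, prob_univ hα hμ]
    have hc : (D'.card : ℝ) ≤ 6 := by
      have : D' ⊆ openable K4 ∅ ∅ := by
        intro e he
        rw [mem_openable]
        exact ⟨hD' e he, Finset.notMem_empty _, fun _ _ => Finset.notMem_empty _⟩
      exact_mod_cast (Finset.card_le_card this).trans openable_card_empty
    have hle : h1 ≤ 1 := by
      rw [hh1, div_le_one (by positivity)]; linarith
    rw [hh0, div_le_one (by positivity)]
    have := mul_le_mul hc hle h1pos.le (by norm_num)
    linarith
  obtain ⟨f0, hf0⟩ : ∃ f, f ∈ D := Finset.nonempty_iff_ne_empty.mpr hDe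
  have hngood : ∀ O, ¬ good (∅, O) := by
    intro O hg
    obtain ⟨v, _, hv⟩ := (hg f0 hf0).2
    exact absurd hv (Finset.notMem_empty v)
  have hsub : ∀ s, 0 ≤ (CTMC.gen (rate K4 α) *ᵥ h) s := by
    rintro ⟨F, O⟩
    by_cases hg : good (F, O)
    · rw [gen_eq_zero_of_const]
      · intro e he
        rw [mem_openable] at he
        have hg' : good (F, insert e O) := by
          intro f hf
          obtain ⟨hf1, v, hv1, hv2⟩ := hg f hf
          refine ⟨?_, v, hv1, hv2⟩
          rw [Finset.mem_insert]
          rintro (rfl | h)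
          · exact he.2.2 v hv1 hv2
          · exact hf1 h
        rw [vA _ hg, vA _ hg']
      · intro C _
        have hg' : good (F ∪ C, O) := by
          intro f hf
          obtain ⟨hf1, v, hv1, hv2⟩ := hg f hf
          exact ⟨hf1, v, hv1, Finset.mem_union_left _ hv2⟩
        rw [vA _ hg, vA _ hg']
    · by_cases h2 : F = ∅ ∧ ∃ e ∈ D', O = {e}
      · obtain ⟨rfl, e, he, rfl⟩ := h2
        have hval : h (∅, {e}) = h1 := vB _ hg ⟨rfl, e, he, rfl⟩
        obtain ⟨a, b, rfl⟩ : ∃ a b, e = s(a, b) := by
          induction e with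
          | _ a b => exact ⟨a, b, rfl⟩
        have hab : a ≠ b := by
          have := hD' _ he
          rw [SimpleGraph.mem_edgeSet, SimpleGraph.top_adj] at this
          exact this
        have hC : cluster {s(a, b)} a ∈ warmClusters ∅ ({s(a, b)} : Finset (Sym2 (Fin 4))) :=
          mem_warmClusters.mpr ⟨a, Finset.notMem_empty _, rfl⟩
        have hgC : good (∅ ∪ cluster {s(a, b)} a, {s(a, b)}) := by
          intro f hf
          refine ⟨?_, ?_⟩
          · rw [Finset.mem_singleton]
            rintro rfl
            exact hdisj _ he hf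
          · obtain ⟨v, hv1, hv2⟩ := htouch _ he f hf
            refine ⟨v, hv2, Finset.mem_union_right _ ?_⟩
            rw [Sym2.mem_iff] at hv1
            rcases hv1 with rfl | rfl
            · exact mem_cluster_self _ _
            · exact mem_cluster_of_edge hab (Finset.mem_singleton_self _)
        have hvC : h (∅ ∪ cluster {s(a, b)} a, {s(a, b)}) = 1 := vA _ hgC
        have key := gen_ge (G := K4) hα.le hnn (F := ∅) (O := {s(a, b)}) ∅
          (Finset.empty_subset _) {cluster {s(a, b)} a} (Finset.singleton_subset_iff.mpr hC)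
        rw [Finset.sum_empty, Finset.sum_singleton, hvC, hval] at key
        refine le_trans ?_ key
        have hc : ((openable K4 ∅ {s(a, b)}).card : ℝ) ≤ 5 := by
          exact_mod_cast openable_card_one (hD' _ he)
        have e1 : (5 + α * 4) * h1 = α := by
          rw [hh1, mul_comm α 4]
          exact mul_div_cancel₀ _ (by positivity)
        have e2 : ((openable K4 ∅ {s(a, b)}).card : ℝ) * h1 ≤ 5 * h1 :=
          mul_le_mul_of_nonneg_right hc h1pos.le
        simp only [Fintype.card_fin, Nat.cast_ofNat]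
        nlinarith
      · by_cases h3 : F = ∅ ∧ O = ∅
        · obtain ⟨rfl, rfl⟩ := h3
          have hval : h (∅, ∅) = h0 := vC _ hg h2 ⟨rfl, rfl⟩
          have hE : D' ⊆ openable K4 ∅ ∅ := by
            intro e he
            rw [mem_openable]
            exact ⟨hD' e he, Finset.notMem_empty _, fun _ _ => Finset.notMem_empty _⟩
          have key := gen_ge (G := K4) hα.le hnn (F := ∅) (O := ∅) D' hE ∅
            (Finset.empty_subset _)
          have hsum : ∑ e ∈ D', h (∅, insert e ∅) = (D'.card : ℝ) * h1 := by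
            rw [← nsmul_eq_mul, ← Finset.sum_const]
            apply Finset.sum_congr rfl
            intro e he
            exact vB _ (hngood _) ⟨rfl, e, he, rfl⟩
          rw [Finset.sum_empty, hsum, hval] at key
          refine le_trans ?_ key
          have hc : ((openable K4 ∅ ∅).card : ℝ) ≤ 6 := by
            exact_mod_cast openable_card_empty
          have e1 : (6 + α * 4) * h0 = (D'.card : ℝ) * h1 := by
            rw [hh0, mul_comm α 4]
            exact mul_div_cancel₀ _ (by positivity)
          have e2 : ((openable K4 ∅ ∅).card : ℝ) * h0 ≤ 6 * h0 :=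
            mul_le_mul_of_nonneg_right hc h0pos
          simp only [Fintype.card_fin, Nat.cast_ofNat]
          nlinarith
        · exact gen_nonneg_of_zero hα.le hnn (vD _ hg h2 h3)
  have hend : ∀ O, h (Finset.univ, O) ≤ (hit D)ᶜ.indicator 1 O := by
    intro O
    have hne : (Finset.univ : Finset (Fin 4)) ≠ ∅ := by decide
    by_cases hg : good (Finset.univ, O)
    · rw [vA _ hg, Set.indicator_of_mem, Pi.one_apply]
      rintro ⟨e, he1, he2⟩
      exact (hg e he1).1 he2
    · rw [vD _ hg (fun h => hne h.1) (fun h => hne h.1)]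
      exact Set.indicator_nonneg (fun _ _ => zero_le_one) _
  have := le_prob hα hμ (hit D)ᶜ hsub hend
  rw [vC _ (hngood _) (fun hh => by
    obtain ⟨_, e, _, he⟩ := hh
    exact absurd he.symm (Finset.singleton_ne_empty e)) ⟨rfl, rfl⟩] at this
  exact this

/-- No edge of `K_4` is open. -/
def noEdge : Set (Finset (Sym2 (Fin 4))) := {O | ∀ e ∈ O, e ∉ K4.edgeSet}

theorem noEdge_of_hit {O : Finset (Sym2 (Fin 4))} (h1 : O ∉ hit inner) (h2 : O ∉ hit cross) :
    O ∈ noEdge := by
  intro e he hK
  have h3 : e ∈ inner ∨ e ∈ cross := by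
    clear h1 h2 he
    revert hK
    induction e with
    | _ a b =>
      intro hK
      rw [SimpleGraph.mem_edgeSet, SimpleGraph.top_adj] at hK
      fin_cases a <;> fin_cases b <;> first | exact absurd rfl hK | decide
  rcases h3 with h3 | h3
  · exact h1 ⟨e, h3, he⟩
  · exact h2 ⟨e, h3, he⟩

theorem cluster_noEdge {O : Finset (Sym2 (Fin 4))} (hO : O ∈ noEdge) (v : Fin 4) :
    cluster O v = {v} := by
  have hbot : SimpleGraph.fromEdgeSet (O : Set (Sym2 (Fin 4))) = ⊥ := by
    ext a b
    rw [SimpleGraph.fromEdgeSet_adj]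
    simp only [SimpleGraph.bot_adj, iff_false]
    rintro ⟨h1, h2⟩
    exact hO _ (by exact_mod_cast h1) (by rw [SimpleGraph.mem_edgeSet, SimpleGraph.top_adj]; exact h2)
  ext u
  simp only [cluster, Finset.mem_filter, Finset.mem_univ, true_and, Finset.mem_singleton, hbot]
  rw [SimpleGraph.reachable_bot]
  exact eq_comm

/-- The values of the superharmonic function. -/
noncomputable def fval (α : ℝ) (j : ℕ) : ℝ := (4 * α) ^ (3 - j)

theorem fval_mono {α : ℝ} (h0 : 0 < α) (h1 : α ≤ 1 / 4) (j : ℕ) : fval α j ≤ fval α (j + 1) := by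
  unfold fval
  exact pow_le_pow_of_le_one (by positivity) (by linarith) (by omega)

/-- Upper bound of the probability that no edge is open. -/
theorem upper {α : ℝ} (hα : 0 < α) (hα' : α ≤ 1 / 4) {μ : Finset (Sym2 (Fin 4)) → ℝ}
    (hμ : IsFinalLaw K4 α μ) : prob μ noEdge ≤ 64 * α ^ 3 := by
  let h : Finset (Fin 4) × Finset (Sym2 (Fin 4)) → ℝ := fun s =>
    if s.2 ∈ noEdge then fval α s.1.card else 0
  have vA : ∀ s, s.2 ∈ noEdge → h s = fval α s.1.card := fun s hs => if_pos hs
  have vB : ∀ s, s.2 ∉ noEdge → h s = 0 := fun s hs => if_neg hs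
  have hsup : ∀ s, (CTMC.gen (rate K4 α) *ᵥ h) s ≤ 0 := by
    rintro ⟨F, O⟩
    by_cases hO : O ∈ noEdge
    · rw [gen_apply]
      have hf0 : 0 ≤ fval α F.card := by unfold fval; positivity
      have e1 : ∑ e ∈ openable K4 F O, (h (F, insert e O) - h (F, O)) =
          -((openable K4 F O).card * fval α F.card) := by
        rw [vA (F, O) hO, ← mul_neg, ← nsmul_eq_mul, ← Finset.sum_const]
        apply Finset.sum_congr rfl
        intro e he
        rw [vB (F, insert e O) (fun h => h e (Finset.mem_insert_self _ _) (mem_openable.mp he).1)]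
        simp
      have e2 : ∑ C ∈ warmClusters F O, (h (F ∪ C, O) - h (F, O)) =
          (warmClusters F O).card * (fval α (F.card + 1) - fval α F.card) := by
        rw [← nsmul_eq_mul, ← Finset.sum_const]
        apply Finset.sum_congr rfl
        intro C hC
        obtain ⟨v, hv, rfl⟩ := mem_warmClusters.mp hC
        rw [vA (F, O) hO, vA (F ∪ cluster O v, O) hO, cluster_noEdge hO]
        simp only
        rw [Finset.union_singleton, Finset.card_insert_of_notMem hv]
      rw [e1, e2]
      have hcl : ((warmClusters F O).card : ℝ) ≤ 4 := by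
        exact_mod_cast (card_warmClusters_le F O).trans (by simp)
      have hm := fval_mono hα hα' F.card
      by_cases hF : F.card ≤ 2
      · -- there is an openable edge
        have hop : 1 ≤ (openable K4 F O).card := by
          rw [Nat.one_le_iff_ne_zero, ← Nat.pos_iff_ne_zero, Finset.card_pos]
          have hc : 1 < (Finset.univ \ F).card := by
            rw [Finset.card_sdiff_of_subset (Finset.subset_univ F)]
            simp only [Finset.card_univ, Fintype.card_fin]
            omega
          obtain ⟨a, b, ha, hb, hab⟩ := Finset.one_lt_card_iff.mp hc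
          refine ⟨s(a, b), mem_openable.mpr ⟨?_, ?_, ?_⟩⟩
          · rw [SimpleGraph.mem_edgeSet, SimpleGraph.top_adj]; exact hab
          · intro h
            exact hO _ h (by rw [SimpleGraph.mem_edgeSet, SimpleGraph.top_adj]; exact hab)
          · intro v hv
            rw [Sym2.mem_iff] at hv
            rcases hv with rfl | rfl
            · exact (Finset.mem_sdiff.mp ha).2
            · exact (Finset.mem_sdiff.mp hb).2
        have hop' : (1 : ℝ) ≤ (openable K4 F O).card := by exact_mod_cast hop
        have hrec : fval α F.card = 4 * α * fval α (F.card + 1) := by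
          unfold fval
          rw [← pow_succ']
          congr 1
          omega
        have h1 : 1 * fval α F.card ≤ (openable K4 F O).card * fval α F.card :=
          mul_le_mul_of_nonneg_right hop' hf0
        have h2 : α * ((warmClusters F O).card * (fval α (F.card + 1) - fval α F.card)) ≤
            α * (4 * (fval α (F.card + 1) - fval α F.card)) := by
          apply mul_le_mul_of_nonneg_left _ hα.le
          exact mul_le_mul_of_nonneg_right hcl (by linarith)
        have h3 : 0 ≤ α * fval α F.card := by positivity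
        nlinarith
      · have hrec : fval α (F.card + 1) = fval α F.card := by
          unfold fval
          congr 1
          omega
        rw [hrec, sub_self, mul_zero, mul_zero, add_zero]
        have : 0 ≤ ((openable K4 F O).card : ℝ) * fval α F.card := by positivity
        linarith
    · rw [gen_apply, vB (F, O) hO]
      have e1 : ∑ e ∈ openable K4 F O, (h (F, insert e O) - 0) = 0 := by
        apply Finset.sum_eq_zero
        intro e he
        rw [vB (F, insert e O) (fun h => hO fun e' he' => h e' (Finset.mem_insert_of_mem he')),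
          sub_zero]
      have e2 : ∑ C ∈ warmClusters F O, (h (F ∪ C, O) - 0) = 0 := by
        apply Finset.sum_eq_zero
        intro C _
        rw [vB (F ∪ C, O) hO, sub_zero]
      rw [e1, e2]
      simp
  have hend : ∀ O, noEdge.indicator 1 O ≤ h (Finset.univ, O) := by
    intro O
    by_cases hO : O ∈ noEdge
    · rw [Set.indicator_of_mem hO, vA _ hO]
      simp [fval]
    · rw [Set.indicator_of_notMem hO, vB _ hO]
  have key := prob_le hα hμ noEdge hsup hend
  have h0 : h (∅, ∅) = 64 * α ^ 3 := by
    rw [vA _ (fun e he => absurd he (Finset.notMem_empty e))]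
    simp only [fval, Finset.card_empty]
    ring
  rw [h0] at key
  exact key

theorem prob_mono_of {μ : Finset (Sym2 (Fin 4)) → ℝ} (h0 : ∀ O, 0 ≤ μ O)
    {A B : Set (Finset (Sym2 (Fin 4)))} (h : A ⊆ B) : prob μ A ≤ prob μ B := by
  unfold prob
  apply Finset.sum_le_sum
  intro O _
  by_cases h1 : O ∈ A
  · rw [if_pos h1, if_pos (h h1)]
  · rw [if_neg h1]
    split_ifs <;> [exact h0 O; exact le_rfl]

theorem prob_compl {μ : Finset (Sym2 (Fin 4)) → ℝ} (A : Set (Finset (Sym2 (Fin 4)))) :
    prob μ A + prob μ Aᶜ = prob μ Set.univ := by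
  unfold prob
  rw [← Finset.sum_add_distrib]
  apply Finset.sum_congr rfl
  intro O _
  by_cases h : O ∈ A
  · rw [if_pos h, if_neg (fun h' => h' h), if_pos (Set.mem_univ _), add_zero]
  · rw [if_neg h, if_pos (Set.mem_compl h), if_pos (Set.mem_univ _), zero_add]

theorem prob_inter {μ : Finset (Sym2 (Fin 4)) → ℝ} (A B : Set (Finset (Sym2 (Fin 4)))) :
    prob μ (A ∩ B) + prob μ Aᶜ + prob μ Bᶜ = prob μ Set.univ + prob μ (Aᶜ ∩ Bᶜ) := by
  unfold prob
  rw [← Finset.sum_add_distrib, ← Finset.sum_add_distrib, ← Finset.sum_add_distrib]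
  apply Finset.sum_congr rfl
  intro O _
  by_cases hA : O ∈ A <;> by_cases hB : O ∈ B <;> simp [hA, hB]

/-- The FKG inequality fails for percolation with constant freezing on the complete graph with
four vertices, for all small freezing rates: the events `01 or 23 is open` and
`some other edge is open` are strictly negatively correlated. -/
theorem result : ∀ α : ℝ, 0 < α → α ≤ 1 / 8000 → (∃ μ, IsFinalLaw K4 α μ) ∧
    ∀ μ, IsFinalLaw K4 α μ →
      (prob μ (hit inner ∩ hit cross) < prob μ (hit inner) * prob μ (hit cross)) ∧ ¬ FKG μ := by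
  intro α hα hα'
  refine ⟨exists_finalLaw K4 hα, fun μ hμ => ?_⟩
  have hlt : prob μ (hit inner ∩ hit cross) < prob μ (hit inner) * prob μ (hit cross) := by
    have h1 := lower hα hμ inner cross (by decide) (by decide) (by decide)
    have h2 := lower hα hμ cross inner (by decide) (by decide) (by decide)
    have h3 := upper hα (by linarith) hμ
    have h4 : prob μ ((hit inner)ᶜ ∩ (hit cross)ᶜ) ≤ prob μ noEdge :=
      prob_mono_of (nonneg_of_finalLaw hα hμ) fun O hO => noEdge_of_hit hO.1 hO.2
    have h5 := prob_univ hα hμ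
    have h6 := prob_inter (μ := μ) (hit inner) (hit cross)
    have h7 := prob_compl (μ := μ) (hit inner)
    have h8 := prob_compl (μ := μ) (hit cross)
    have c1 : (cross.card : ℝ) = 4 := by norm_num [show cross.card = 4 from rfl]
    have c2 : (inner.card : ℝ) = 2 := by norm_num [show inner.card = 2 from rfl]
    rw [c1] at h1
    rw [c2] at h2
    set a := prob μ (hit inner)ᶜ
    set b := prob μ (hit cross)ᶜ
    have hden : (5 + 4 * α) * (6 + 4 * α) ≤ 31 := by nlinarith
    have hA : 4 * α / 31 ≤ a := by
      refine le_trans ?_ h1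
      rw [mul_div_assoc', div_div, div_le_div_iff₀ (by norm_num) (by positivity)]
      exact mul_le_mul_of_nonneg_left hden (by positivity)
    have hB : 2 * α / 31 ≤ b := by
      refine le_trans ?_ h2
      rw [mul_div_assoc', div_div, div_le_div_iff₀ (by norm_num) (by positivity)]
      exact mul_le_mul_of_nonneg_left hden (by positivity)
    have hab : 64 * α ^ 3 < a * b := by
      have hprod : (4 * α / 31) * (2 * α / 31) ≤ a * b :=
        mul_le_mul hA hB (by positivity) (le_trans (by positivity) hA)
      refine lt_of_lt_of_le ?_ hprod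
      have hsq : 0 < α ^ 2 := by positivity
      have : 64 * α ^ 3 = (64 * α) * α ^ 2 := by ring
      rw [this]
      have h9 : (4 * α / 31) * (2 * α / 31) = (8 / 961) * α ^ 2 := by ring
      rw [h9]
      apply mul_lt_mul_of_pos_right _ hsq
      linarith
    have e1 : prob μ (hit inner) = 1 - a := by linarith
    have e2 : prob μ (hit cross) = 1 - b := by linarith
    rw [e1, e2]
    nlinarith
  refine ⟨hlt, fun hF => ?_⟩
  exact absurd (hF (hit inner) (hit cross) (hit_upper _) (hit_upper _)) (not_le.mpr hlt)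

end Pool.Agent.Results.MP_b6680e_pr.FKGFailsK4
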